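import Pool.Agent.Helper85.QT.St2

/-!
Project QT (MP_d112a4_gt), module BAN: near every limit point there is a big disc in the annulus.
-/

set_option autoImplicit false

open MeasureTheory Matrix Set Topology
open scoped ENNReal ComplexConjugate

namespace Pool.Agent.Helper24.QT

open Pool.Agent.Helper85.QT Pool.Agent.Helper86.QA

private lemma det_mul (a : ℂ) :
    ((ContinuousLinearMap.toSpanSingleton ℂ a).restrictScalars ℝ : ℂ →L[ℝ] ℂ).det = ‖a‖ ^ 2 := by
  set L : ℂ →L[ℝ] ℂ := (ContinuousLinearMap.toSpanSingleton ℂ a).restrictScalars ℝ with hL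
  have h1 : L.det = (LinearMap.toMatrix Complex.basisOneI Complex.basisOneI
      (L : ℂ →ₗ[ℝ] ℂ)).det := by
    rw [LinearMap.det_toMatrix]
  rw [h1, Matrix.det_fin_two]
  simp only [LinearMap.toMatrix_apply, Complex.coe_basisOneI_repr, Complex.coe_basisOneI]
  rw [← Complex.normSq_eq_norm_sq, Complex.normSq_apply]
  simp [hL]

private lemma per_int {M : ℝ} {G : ℂ → ℂ} (h : HN M G) (n : ℤ) :
    ∀ w ∈ Sm M, G (w + n) = G w + n := by
  have hS : ∀ w ∈ Sm M, ∀ r : ℤ, w + (r : ℂ) ∈ Sm M := by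
    intro w hw r
    simp only [Sm, mem_setOf_eq, Complex.add_im, Complex.intCast_im, add_zero] at hw ⊢
    exact hw
  induction n using Int.induction_on with
  | zero => intro w _; simp
  | succ k ih =>
    intro w hw
    have h1 := h.per (w + ((k : ℤ) : ℂ)) (hS w hw _)
    have h2 := ih w hw
    push_cast at h1 h2 ⊢
    rw [← add_assoc, h1, h2]
    ring
  | pred k ih =>
    intro w hw
    have h1 := h.per (w + (((-(k : ℤ) - 1 : ℤ)) : ℂ)) (hS w hw _)
    have h2 := ih w hw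
    have h3 : w + (((-(k : ℤ) - 1 : ℤ)) : ℂ) + 1 = w + ((-(k : ℤ) : ℤ) : ℂ) := by
      push_cast; ring
    rw [h3, h2] at h1
    push_cast at h1 ⊢
    linear_combination -h1

/-- the oscillation of the imaginary part along a vertical segment which stays near the limit set -/
private lemma osc (hFDC : StFDC) {A B : Set ℂ} {lam : ℂ} {M : ℝ} {G : ℂ → ℂ} {C6 bb : ℝ} {N : ℕ}
    (hlam : lam ≠ 0) (hG : ContinuousOn G (Sm M)) (hC6 : 1 ≤ C6) (hbb : Bnd A B lam bb)
    (hN : bb ≤ N) (hτ : 4 * C6 * N + 2 * C6 + 1 ≤ (2 * Real.pi * Complex.I / lam).im)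
    {x a b : ℝ} (ha : a ∈ Ioo 0 M) (hb : b ∈ Ioo 0 M)
    (hz : ∀ y ∈ uIcc a b, ∃ ζ : ℂ, Complex.exp (lam * ζ) ∈ LS A B ∧
      ‖G (x + y * Complex.I) - ζ‖ ≤ C6) :
    |(G (x + b * Complex.I)).im - (G (x + a * Complex.I)).im| ≤ 4 * C6 * N := by
  by_contra hcon
  push Not at hcon
  obtain ⟨-, -, h3, -, -⟩ := hFDC lam hlam
  obtain ⟨h0, -, -, -, -⟩ := hFDC lam hlam
  set τ : ℂ := 2 * Real.pi * Complex.I / lam with hτdef
  have hτ1 : (1 : ℝ) < τ.im := by
    have : 0 ≤ 4 * C6 * N := by positivity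
    linarith
  set g : ℝ → ℝ := fun y => (G (x + y * Complex.I)).im with hg
  have hgc : ContinuousOn g (uIcc a b) := by
    have h1 : ContinuousOn (fun y : ℝ => G ((x : ℂ) + y * Complex.I)) (uIcc a b) := by
      apply hG.comp
      · fun_prop
      · intro y hy
        have h2 : y ∈ Ioo 0 M := by
          have := (ordConnected_Ioo (a := (0 : ℝ)) (b := M)).uIcc_subset ha hb
          exact this hy
        simp only [Sm, mem_setOf_eq]
        simpa using h2
    exact Complex.continuous_im.comp_continuousOn h1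
  -- the sign
  obtain ⟨s, hs1, hs2⟩ : ∃ s : ℝ, |s| = 1 ∧ 4 * C6 * N < s * (g b - g a) := by
    rcases le_total 0 (g b - g a) with h | h
    · exact ⟨1, by simp, by rw [abs_of_nonneg h] at hcon; linarith⟩
    · exact ⟨-1, by simp, by rw [abs_of_nonpos h] at hcon; linarith⟩
  have hNpos : 0 ≤ 4 * C6 * (N : ℝ) := by positivity
  have hivt : ∀ j : Fin (N + 1), ∃ y ∈ uIcc a b, g y = g a + s * (4 * C6 * (j : ℕ)) := by
    intro j
    have hj : ((j : ℕ) : ℝ) ≤ N := by
      have := j.2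
      exact_mod_cast Nat.lt_succ_iff.1 this
    have hj2 : 4 * C6 * ((j : ℕ) : ℝ) ≤ 4 * C6 * N := by
      apply mul_le_mul_of_nonneg_left hj (by positivity)
    have hj3 : 0 ≤ 4 * C6 * ((j : ℕ) : ℝ) := by positivity
    have hmem : g a + s * (4 * C6 * (j : ℕ)) ∈ uIcc (g a) (g b) := by
      rw [mem_uIcc]
      rcases (abs_eq (by norm_num : (0 : ℝ) ≤ 1)).1 hs1 with h | h
      · left
        rw [h] at hs2 ⊢
        constructor <;> linarith
      · right
        rw [h] at hs2 ⊢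
        constructor <;> linarith
    obtain ⟨y, hy, hy2⟩ := intermediate_value_uIcc hgc hmem
    exact ⟨y, hy, hy2⟩
  choose y hy hyg using hivt
  have hζ : ∀ j : Fin (N + 1), ∃ ζ : ℂ, Complex.exp (lam * ζ) ∈ LS A B ∧
      ‖G (x + (y j) * Complex.I) - ζ‖ ≤ C6 := fun j => hz (y j) (hy j)
  choose ζ hζ1 hζ2 using hζ
  have him : ∀ j, |g (y j) - (ζ j).im| ≤ C6 := by
    intro j
    have h := (Complex.abs_im_le_norm (G (x + (y j) * Complex.I) - ζ j)).trans (hζ2 j)
    simpa [hg] using h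
  have hsep : ∀ i j : Fin (N + 1), i ≠ j → 2 * C6 ≤ |(ζ i).im - (ζ j).im| ∧
      |(ζ i).im - (ζ j).im| ≤ 4 * C6 * N + 2 * C6 := by
    intro i j hij
    have h1 : |g (y i) - g (y j)| = 4 * C6 * |((i : ℕ) : ℝ) - ((j : ℕ) : ℝ)| := by
      rw [hyg i, hyg j]
      have : g a + s * (4 * C6 * ((i : ℕ) : ℝ)) - (g a + s * (4 * C6 * ((j : ℕ) : ℝ))) =
          s * ((4 * C6) * (((i : ℕ) : ℝ) - ((j : ℕ) : ℝ))) := by ring
      rw [this, abs_mul, hs1, one_mul, abs_mul, abs_of_pos (by positivity)]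
    have h2 : (1 : ℝ) ≤ |((i : ℕ) : ℝ) - ((j : ℕ) : ℝ)| := by
      have h4 : ((i : ℕ) : ℤ) ≠ ((j : ℕ) : ℤ) := by
        intro h
        exact hij (Fin.ext (by exact_mod_cast h))
      have h5 : (1 : ℤ) ≤ |((i : ℕ) : ℤ) - ((j : ℕ) : ℤ)| := Int.one_le_abs (sub_ne_zero.2 h4)
      exact_mod_cast h5
    have h3 : |((i : ℕ) : ℝ) - ((j : ℕ) : ℝ)| ≤ N := by
      have hi : ((i : ℕ) : ℝ) ≤ N := by exact_mod_cast Nat.lt_succ_iff.1 i.2
      have hj : ((j : ℕ) : ℝ) ≤ N := by exact_mod_cast Nat.lt_succ_iff.1 j.2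
      have hi0 : (0 : ℝ) ≤ ((i : ℕ) : ℝ) := by positivity
      have hj0 : (0 : ℝ) ≤ ((j : ℕ) : ℝ) := by positivity
      rw [abs_le]
      constructor <;> linarith
    have h4 := abs_le.1 (him i)
    have h5 := abs_le.1 (him j)
    have h6 : 4 * C6 ≤ |g (y i) - g (y j)| := by rw [h1]; nlinarith
    have h7 : |g (y i) - g (y j)| ≤ 4 * C6 * N := by
      rw [h1]; exact mul_le_mul_of_nonneg_left h3 (by positivity)
    constructor
    · rcases le_abs.1 h6 with h | h
      · exact le_trans (by linarith) (le_abs_self _)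
      · exact le_trans (by linarith) (neg_le_abs _)
    · have h8 := abs_le.1 h7
      rw [abs_le]
      constructor <;> linarith
  have hsep1 : ∀ i j : Fin (N + 1), i ≠ j → ∀ n : ℤ,
      1 ≤ fd lam (Complex.exp (n * lam) * Complex.exp (lam * ζ i)) (Complex.exp (lam * ζ j)) := by
    intro i j hij n
    have h1 : Complex.exp (n * lam) * Complex.exp (lam * ζ i) = Complex.exp (lam * (ζ i + n)) := by
      rw [← Complex.exp_add]; congr 1; ring
    rw [h1]
    obtain ⟨-, k, hk⟩ := h3 (ζ i + n) (ζ j)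
    rw [hk]
    have h2 : |(ζ i).im - (ζ j).im + k * τ.im| ≤ ‖ζ i + n - ζ j + k * τ‖ := by
      have h := Complex.abs_im_le_norm (ζ i + n - ζ j + k * τ)
      have h4 : (ζ i + n - ζ j + k * τ).im = (ζ i).im - (ζ j).im + k * τ.im := by
        simp [Complex.mul_im]
      rwa [h4] at h
    refine le_trans ?_ h2
    obtain ⟨h5, h6⟩ := hsep i j hij
    rcases eq_or_ne k 0 with hk0 | hk0
    · rw [hk0]
      simp only [Int.cast_zero, zero_mul, add_zero]
      linarith
    · have h7 : (1 : ℝ) ≤ |(k : ℝ)| := by exact_mod_cast Int.one_le_abs hk0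
      have h8 : τ.im ≤ |(k : ℝ) * τ.im| := by
        rw [abs_mul, abs_of_pos (by linarith : 0 < τ.im)]
        nlinarith
      have h9 := abs_sub_abs_le_abs_sub ((k : ℝ) * τ.im) (-((ζ i).im - (ζ j).im))
      rw [abs_neg] at h9
      have h10 : (k : ℝ) * τ.im - -((ζ i).im - (ζ j).im) = (ζ i).im - (ζ j).im + k * τ.im := by
        ring
      rw [h10] at h9
      linarith
  have hinj : Function.Injective (fun j : Fin (N + 1) => Complex.exp (lam * ζ j)) := by
    intro i j hij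
    by_contra hne
    have h1 := hsep1 i j hne 0
    simp only [Int.cast_zero, zero_mul, Complex.exp_zero, one_mul] at h1
    have h2 : Complex.exp (lam * ζ i) = Complex.exp (lam * ζ j) := hij
    rw [h2, (h0 _ (Complex.exp (lam * ζ j))).2.2] at h1
    norm_num at h1
  have hcard := hbb.2 (Finset.univ.image (fun j : Fin (N + 1) => Complex.exp (lam * ζ j))) (by
    intro ξ hξ
    obtain ⟨j, -, rfl⟩ := Finset.mem_image.1 hξ
    exact ⟨hζ1 j, Complex.exp_ne_zero _⟩) (by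
    intro ξ hξ η hη hne n
    obtain ⟨i, -, rfl⟩ := Finset.mem_image.1 hξ
    obtain ⟨j, -, rfl⟩ := Finset.mem_image.1 hη
    refine hsep1 i j ?_ n
    rintro rfl
    exact hne rfl)
  rw [Finset.card_image_of_injective _ hinj, Finset.card_univ, Fintype.card_fin] at hcard
  push_cast at hcard
  linarith

private lemma area {lam : ℂ} {G : ℂ → ℂ} {P : Set ℂ} (hlam : lam ≠ 0) (hP : MeasurableSet P)
    (hd : ∀ w ∈ P, DifferentiableAt ℂ G w) (hinj : InjOn (fun w => Complex.exp (lam * G w)) P)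
    (hge : ∀ w ∈ P, 1 / 4 ≤ ‖deriv G w‖) :
    ENNReal.ofReal (1 / 16) * volume P ≤
      ∫⁻ η in (fun w => Complex.exp (lam * G w)) '' P, ENNReal.ofReal (1 / (‖lam‖ ^ 2 * ‖η‖ ^ 2)) := by
  have hder : ∀ w ∈ P, HasFDerivWithinAt (fun w => Complex.exp (lam * G w))
      ((ContinuousLinearMap.toSpanSingleton ℂ
        (Complex.exp (lam * G w) * (lam * deriv G w))).restrictScalars ℝ : ℂ →L[ℝ] ℂ) P w := by
    intro w hw
    have h1 := ((hd w hw).hasDerivAt.const_mul lam).cexp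
    exact (h1.hasFDerivAt.restrictScalars ℝ).hasFDerivWithinAt
  rw [lintegral_image_eq_lintegral_abs_det_fderiv_mul volume hP hder hinj]
  rw [← setLIntegral_const]
  apply setLIntegral_mono' hP
  intro w hw
  rw [det_mul, abs_of_nonneg (by positivity), ← ENNReal.ofReal_mul (by positivity)]
  apply ENNReal.ofReal_le_ofReal
  have h1 : 0 < ‖lam‖ := norm_pos_iff.2 hlam
  have h2 : 0 < ‖Complex.exp (lam * G w)‖ := norm_pos_iff.2 (Complex.exp_ne_zero _)
  have h3 : ‖Complex.exp (lam * G w) * (lam * deriv G w)‖ ^ 2 *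
      (1 / (‖lam‖ ^ 2 * ‖Complex.exp (lam * G w)‖ ^ 2)) = ‖deriv G w‖ ^ 2 := by
    rw [norm_mul, norm_mul]
    field_simp
  rw [h3]
  have h4 := hge w hw
  nlinarith [norm_nonneg (deriv G w)]

/-- BAN. near every limit point there is a big disc in the annulus -/
theorem hBAN (hFDC : StFDC) (hHN1 : StHN1) (hANB : StANB) (hCLA : StCLA) (hFUL : StFUL)
    (hGLS : StGLS) : StBAN := by
  intro C3 hC3
  obtain ⟨C5, hC5, hful⟩ := hFUL C3 hC3
  set C6 : ℝ := 4 * (C5 + 2) + 2 with hC6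
  have hC61 : 1 ≤ C6 := by linarith
  refine ⟨20 * C6, 1 / 64, by linarith, by norm_num, ?_⟩
  intro Γ _ ρ A B α lam M G m φ bb hA hb hm ξ hξ hξ0
  obtain ⟨hlam, hHG, -, -, hmM, -, hMτ, -, -, -, -, -, -, -, -⟩ :=
    hANB Γ ρ A B α lam M G m φ C3 hA
  obtain ⟨f0, -, f3, f4, -⟩ := hFDC lam hlam
  set τ : ℂ := 2 * Real.pi * Complex.I / lam with hτdef
  have hbb1 : 1 ≤ bb := hb.1
  obtain ⟨N, hN1, hN2, hN3⟩ : ∃ N : ℕ, bb ≤ N ∧ (N : ℝ) ≤ 2 * bb ∧ (1 : ℝ) ≤ N := by
    refine ⟨⌈bb⌉₊, Nat.le_ceil _, ?_, ?_⟩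
    · have := Nat.ceil_lt_add_one (by linarith : 0 ≤ bb)
      linarith
    · exact hbb1.trans (Nat.le_ceil _)
  have hC6bb : C6 ≤ C6 * bb := by nlinarith
  have hC6N : C6 * N ≤ 2 * (C6 * bb) := by nlinarith
  have hNC6N : (N : ℝ) ≤ C6 * N := by nlinarith
  have hm20 : 20 * (C6 * bb) ≤ m := by linarith
  have hC5m : C5 ≤ m := by linarith
  -- (a)
  have hlamp : 0 < ‖lam‖ := norm_pos_iff.2 hlam
  have hξp : 0 < ‖ξ‖ := norm_pos_iff.2 hξ0
  obtain ⟨w₀, hw₀, hfd0⟩ : ∃ w₀ ∈ Sm M, fd lam ξ (Complex.exp (lam * G w₀)) ≤ 1 := by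
    set ε : ℝ := min (1 / 2) (‖lam‖ / 2) with hε
    have hε0 : 0 < ε := by positivity
    have hε1 : ε ≤ 1 / 2 := min_le_left _ _
    have hε2 : ε ≤ ‖lam‖ / 2 := min_le_right _ _
    have hcl := hCLA Γ ρ A B hA.kd hξ
    rw [Metric.mem_closure_iff] at hcl
    obtain ⟨a, haA, hda⟩ := hcl (ε * ‖ξ‖ / 2) (by positivity)
    rw [dist_eq_norm] at hda
    have ha1 : ‖ξ‖ / 2 ≤ ‖a‖ := by
      have h1 : ‖ξ‖ - ‖a‖ ≤ ‖ξ - a‖ := norm_sub_norm_le ξ a
      nlinarith
    have ha0 : a ≠ 0 := by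
      intro h
      rw [h, norm_zero] at ha1
      linarith
    obtain ⟨w₀, hw₀, hw₀a⟩ := hA.Gb.surjOn haA
    refine ⟨w₀, hw₀, ?_⟩
    have hw : Complex.exp (lam * G w₀) = a := hw₀a
    rw [hw]
    have h2 : ‖ξ / a - 1‖ ≤ ε := by
      have h3 : ξ / a - 1 = (ξ - a) / a := by field_simp
      rw [h3, norm_div, div_le_iff₀ (norm_pos_iff.2 ha0)]
      nlinarith
    refine (f4 ξ a ε hξ0 ha0 hε1 h2).trans ?_
    rw [div_le_one hlamp]
    linarith
  obtain ⟨ζ, hζ, hζ1⟩ : ∃ ζ : ℂ, Complex.exp (lam * ζ) = ξ ∧ ‖ζ - G w₀‖ ≤ 1 := by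
    have h1 : Complex.exp (lam * (Complex.log ξ / lam)) = ξ := by
      rw [mul_div_cancel₀ _ hlam, Complex.exp_log hξ0]
    obtain ⟨-, k, hk⟩ := f3 (Complex.log ξ / lam) (G w₀)
    rw [h1] at hk
    refine ⟨Complex.log ξ / lam + k * τ, ?_, ?_⟩
    · have h2 : lam * (Complex.log ξ / lam + k * τ) = lam * (Complex.log ξ / lam) +
          k * (2 * Real.pi * Complex.I) := by
        rw [hτdef]; field_simp
      rw [h2, Complex.exp_add, h1, Complex.exp_int_mul_two_pi_mul_I, mul_one]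
    · have h3 : Complex.log ξ / lam + k * τ - G w₀ = Complex.log ξ / lam - G w₀ + k * τ := by ring
      rw [h3, ← hk]
      exact hfd0
  -- (b) the heights
  have hw₀' : 0 < w₀.im ∧ w₀.im < M := hw₀
  have hMbig : 20 * (C6 * bb) ≤ M := hm20.trans hmM
  have hC5C6 : 4 * C5 + 10 = C6 := by rw [hC6]; ring
  have hNb : (N : ℝ) ≤ 2 * bb := hN2
  have hbC : 18 * bb ≤ C6 * bb := by nlinarith
  obtain ⟨h₁, s, hs, hh₁a, hh₁b, hh₁c, hseg⟩ : ∃ h₁ s : ℝ, |s| = 1 ∧
      C5 + 2 ≤ h₁ ∧ C5 + 2 ≤ M - h₁ ∧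
      (∀ t : ℝ, 0 ≤ t → t ≤ 2 * N → C5 + 2 ≤ h₁ + s * t ∧ C5 + 2 ≤ M - (h₁ + s * t)) ∧
      (∀ y ∈ uIcc w₀.im h₁, w₀.im ≠ h₁ → min y (M - y) ≤ C5 + 2) := by
    rcases le_total w₀.im (M / 2) with hlow | hhigh
    · refine ⟨max w₀.im (C5 + 2), 1, by simp, le_max_right _ _, ?_, ?_, ?_⟩
      · have : max w₀.im (C5 + 2) ≤ M / 2 := max_le hlow (by linarith)
        linarith
      · intro t ht0 ht1
        have h1 : max w₀.im (C5 + 2) ≤ M / 2 := max_le hlow (by linarith)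
        have h2 := le_max_right w₀.im (C5 + 2)
        constructor <;> linarith
      · intro y hy hne
        rcases le_total (C5 + 2) w₀.im with h | h
        · exact absurd (max_eq_left h).symm hne
        · rw [max_eq_right h, uIcc_of_le h] at hy
          exact (min_le_left _ _).trans hy.2
    · refine ⟨min w₀.im (M - (C5 + 2)), -1, by simp, ?_, ?_, ?_, ?_⟩
      · have : M / 2 ≤ min w₀.im (M - (C5 + 2)) := le_min hhigh (by linarith)
        linarith
      · have := min_le_right w₀.im (M - (C5 + 2))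
        linarith
      · intro t ht0 ht1
        have h1 : M / 2 ≤ min w₀.im (M - (C5 + 2)) := le_min hhigh (by linarith)
        have h2 := min_le_right w₀.im (M - (C5 + 2))
        constructor <;> linarith
      · intro y hy hne
        rcases le_total w₀.im (M - (C5 + 2)) with h | h
        · exact absurd (min_eq_left h).symm hne
        · rw [min_eq_right h, uIcc_of_ge h] at hy
          exact (min_le_right _ _).trans (by linarith [hy.1])
  -- (c)
  set w₁ : ℂ := w₀.re + h₁ * Complex.I with hw₁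
  have hw₁im : w₁.im = h₁ := by simp [hw₁]
  have hw₁S : w₁ ∈ Sm M := by
    simp only [Sm, mem_setOf_eq, hw₁im]
    constructor <;> linarith
  have hw₀eq : (w₀.re : ℂ) + w₀.im * Complex.I = w₀ := Complex.re_add_im w₀
  have hosc : |(G w₁).im - (G w₀).im| ≤ 4 * C6 * N := by
    by_cases hne : w₀.im = h₁
    · have : w₁ = w₀ := by rw [hw₁, ← hne, hw₀eq]
      rw [this, sub_self, abs_zero]
      positivity
    · have h1 := osc (C6 := C6) (N := N) (x := w₀.re) (a := w₀.im) (b := h₁) hFDC hlam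
        hHG.dif.continuousOn hC61 hb hN1 (by linarith) ⟨hw₀'.1, hw₀'.2⟩
        ⟨by linarith, by linarith⟩ (by
        intro y hy
        have hyS : (w₀.re : ℂ) + y * Complex.I ∈ Sm M := by
          have h2 : y ∈ Ioo 0 M :=
            (ordConnected_Ioo (a := (0 : ℝ)) (b := M)).uIcc_subset ⟨hw₀'.1, hw₀'.2⟩
              ⟨by linarith, by linarith⟩ hy
          simp only [Sm, mem_setOf_eq]
          simpa using h2
        obtain ⟨ζ', h3, h4⟩ := hGLS Γ ρ A B α lam M G m φ C3 hA _ hyS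
        refine ⟨ζ', h3, h4.trans ?_⟩
        have h5 : dd M ((w₀.re : ℂ) + y * Complex.I) = min y (M - y) := by simp [dd]
        rw [h5, hC6]
        have := hseg y hy hne
        linarith)
      rw [hw₀eq] at h1
      exact h1
  -- (d)
  set n : ℤ := round (ζ - G w₁).re with hn
  have hn1 : |(ζ - G w₁).re - n| ≤ 1 / 2 := abs_sub_round _
  set w₂ : ℂ := w₁ + n with hw₂
  have hw₂im : w₂.im = h₁ := by simp [hw₂, hw₁im]
  have hGw₂ : G w₂ = G w₁ + n := per_int hHG n w₁ hw₁S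
  have hζw₂ : ‖ζ - G w₂‖ ≤ 4 * C6 * N + 3 / 2 := by
    refine (Complex.norm_le_abs_re_add_abs_im _).trans ?_
    have h1 : (ζ - G w₂).re = (ζ - G w₁).re - n := by
      rw [hGw₂]; simp only [Complex.sub_re, Complex.add_re, Complex.intCast_re]; ring
    have h2 : (ζ - G w₂).im = (ζ - G w₀).im - ((G w₁).im - (G w₀).im) := by
      rw [hGw₂]; simp only [Complex.sub_im, Complex.add_im, Complex.intCast_im]; ring
    rw [h1, h2]
    have h3 := (Complex.abs_im_le_norm (ζ - G w₀)).trans hζ1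
    have h4 := abs_sub (ζ - G w₀).im ((G w₁).im - (G w₀).im)
    linarith
  -- (e)
  set w₃ : ℂ := w₂ + (s * N : ℝ) * Complex.I with hw₃
  have hw₃im : w₃.im = h₁ + s * N := by simp [hw₃, hw₂im]
  set P : Set ℂ := Metric.ball w₃ (N / 2) with hP
  have hPim : ∀ w ∈ P, C5 + 2 ≤ w.im ∧ C5 + 2 ≤ M - w.im := by
    intro w hw
    rw [hP, Metric.mem_ball, dist_eq_norm] at hw
    have h1 := (Complex.abs_im_le_norm (w - w₃)).trans hw.le
    rw [Complex.sub_im, hw₃im] at h1
    have h2 := abs_le.1 h1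
    rcases (abs_eq (by norm_num : (0 : ℝ) ≤ 1)).1 hs with h | h
    · have h3 := hh₁c 0 le_rfl (by positivity)
      have h4 := hh₁c (2 * N) (by positivity) le_rfl
      rw [h] at h2 h3 h4
      constructor <;> linarith
    · have h3 := hh₁c 0 le_rfl (by positivity)
      have h4 := hh₁c (2 * N) (by positivity) le_rfl
      rw [h] at h2 h3 h4
      constructor <;> linarith
  set S' : Set ℂ := {w : ℂ | C5 + 2 ≤ w.im ∧ C5 + 2 ≤ M - w.im} with hS'
  have hS'dd : ∀ w ∈ S', C5 + 2 ≤ dd M w := fun w hw => le_min hw.1 hw.2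
  have hS'Sm : S' ⊆ Sm M := by
    intro w hw
    have h1 : C5 + 2 ≤ w.im := hw.1
    have h2 : C5 + 2 ≤ M - w.im := hw.2
    simp only [Sm, mem_setOf_eq]
    constructor <;> linarith
  have hSmo : IsOpen (Sm M) := by
    have h1 : IsOpen {w : ℂ | 0 < w.im} := isOpen_lt continuous_const Complex.continuous_im
    have h2 : IsOpen {w : ℂ | w.im < M} := isOpen_lt Complex.continuous_im continuous_const
    exact h1.inter h2
  have hdiff : ∀ w ∈ S', DifferentiableAt ℂ G w := fun w hw =>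
    hHG.dif.differentiableAt (hSmo.mem_nhds (hS'Sm hw))
  have hS'conv : Convex ℝ S' := by
    have h1 : Convex ℝ {w : ℂ | C5 + 2 ≤ w.im} :=
      convex_halfSpace_ge (f := fun w : ℂ => w.im) Complex.imLm.isLinear _
    have h2 : Convex ℝ {w : ℂ | w.im ≤ M - (C5 + 2)} :=
      convex_halfSpace_le (f := fun w : ℂ => w.im) Complex.imLm.isLinear _
    have h3 : S' = {w : ℂ | C5 + 2 ≤ w.im} ∩ {w : ℂ | w.im ≤ M - (C5 + 2)} := by
      ext w
      simp only [hS', mem_setOf_eq, mem_inter_iff]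
      constructor
      · rintro ⟨h, h'⟩; exact ⟨h, by linarith⟩
      · rintro ⟨h, h'⟩; exact ⟨h, by linarith⟩
    rw [h3]
    exact h1.inter h2
  obtain ⟨hN1a, hN1b, -⟩ := hHN1 M G hHG
  have hw₂S' : w₂ ∈ S' := by
    simp only [hS', mem_setOf_eq, hw₂im]
    exact ⟨hh₁a, hh₁b⟩
  have hlip : ∀ w ∈ P, ‖G w - G w₂‖ ≤ 3 * ‖w - w₂‖ := by
    intro w hw
    exact hS'conv.norm_image_sub_le_of_norm_deriv_le hdiff
      (fun z hz => hN1a z (by linarith [hS'dd z hz])) hw₂S' (hPim w hw)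
  have hww₂ : ∀ w ∈ P, ‖w - w₂‖ ≤ 3 / 2 * N := by
    intro w hw
    rw [hP, Metric.mem_ball, dist_eq_norm] at hw
    have h1 : w - w₂ = (w - w₃) + (s * N : ℝ) * Complex.I := by rw [hw₃]; ring
    have h2 : ‖((s * N : ℝ) : ℂ) * Complex.I‖ = N := by
      rw [norm_mul, Complex.norm_I, mul_one, Complex.norm_real, Real.norm_eq_abs, abs_mul, hs,
        one_mul, abs_of_nonneg (by positivity)]
    rw [h1]
    refine (norm_add_le _ _).trans ?_
    rw [h2]
    linarith
  have hnear : ∀ w ∈ P, ‖ζ - G w‖ ≤ 20 * C6 * bb := by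
    intro w hw
    have h1 := hlip w hw
    have h2 := hww₂ w hw
    have h3 : ζ - G w = (ζ - G w₂) - (G w - G w₂) := by ring
    rw [h3]
    refine (norm_sub_le _ _).trans ?_
    nlinarith
  have hInjS : InjOn (fun w => Complex.exp (lam * G w)) (Sm M) := hA.Gb.injOn
  have hPS' : P ⊆ S' := fun w hw => hPim w hw
  have hInjP : InjOn (fun w => Complex.exp (lam * G w)) P := hInjS.mono (hPS'.trans hS'Sm)
  have hPm : MeasurableSet P := Metric.isOpen_ball.measurableSet
  have hcontP : ContinuousOn (fun w => Complex.exp (lam * G w)) P := by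
    have h1 : ContinuousOn G P := hHG.dif.continuousOn.mono (hPS'.trans hS'Sm)
    exact (continuousOn_const.mul h1).cexp
  refine ⟨(fun w => Complex.exp (lam * G w)) '' P,
    hPm.image_of_continuousOn_injOn hcontP hInjP, ?_, ?_, ?_⟩
  · rintro η ⟨w, hw, rfl⟩
    have h1 := hS'dd w (hPS' hw)
    obtain ⟨v, hv, hvw⟩ := hful Γ ρ A B α lam M G m φ hA hC5m w (by linarith)
    refine ⟨v, hv, ?_⟩
    simp only [hvw]
  · rintro η ⟨w, hw, rfl⟩
    refine ⟨Complex.exp_ne_zero _, ?_⟩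
    have h1 := (f3 ζ (G w)).1 0
    rw [hζ] at h1
    simp only [Int.cast_zero, zero_mul, add_zero] at h1
    exact h1.trans (hnear w hw)
  · refine le_trans ?_ (area hlam hPm (fun w hw => hdiff w (hPS' hw)) hInjP
      (fun w hw => hN1b w (by linarith [hS'dd w (hPS' hw)])))
    rw [hP, Complex.volume_ball]
    have h1 : ENNReal.ofReal (1 / 64 * bb ^ 2) ≤
        ENNReal.ofReal (1 / 16) * (ENNReal.ofReal ((N : ℝ) / 2) ^ 2 * 1) := by
      rw [mul_one, ← ENNReal.ofReal_pow (by positivity), ← ENNReal.ofReal_mul (by norm_num)]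
      apply ENNReal.ofReal_le_ofReal
      nlinarith
    refine h1.trans ?_
    gcongr
    have h2 : (1 : ℝ) ≤ Real.pi := by linarith [Real.pi_gt_three]
    have h3 : (1 : NNReal) ≤ NNReal.pi := by
      rw [← NNReal.coe_le_coe]
      simpa using h2
    exact_mod_cast h3

end Pool.Agent.Helper24.QT
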